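import Pool.Agent.H3.GP.ZL
import Pool.Graph.R_seed8.Y969.GP.Fin3
import Pool.Graph.R_seed8.Y125.GP.VAR
import Pool.Graph.R_seed8.Y379.GP.Sp
import Pool.Graph.R_seed8.Y379.GP.Off
import Pool.Graph.R_seed8.Y545.GP.CR
import Pool.Graph.R_seed8.Y587.GP.V
import Pool.Graph.R_seed8.Y587.GP.Chi
import Pool.Graph.R_seed8.Y434.GP.RPL
import Pool.Graph.R_seed8.Y891.GP.AFE
import Pool.Graph.R_seed8.Y961.GP.NS
import Pool.Graph.R_seed8.Y232.GP.E1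
import Pool.Graph.R_seed8.Y86.GP.CT
import Pool.Graph.R_seed8.Y180.GP.Mel
import Pool.Graph.R_seed8.Y185.GP.HOL
import Pool.Graph.R_seed8.Y22.GP.Tel
import Pool.Graph.R_seed8.Y155.GP.D1
import Pool.Graph.R_seed8.Y258.GP.MB
import Pool.Graph.R_seed8.Y319.GP.FB
import Pool.Graph.R_seed8.Y321.GP.FD
import Pool.Graph.R_seed8.Y79.GP.ZP

set_option autoImplicit false

/-! All the parts of project GP together. -/

namespace Pool.Agent.H3.GP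

open Pool.Agent.Y969.GP

theorem gMB : S_MB := Pool.Agent.Y258.GPMB.t_MB (Pool.Agent.Y319.GP.t_FB Pool.Agent.Y321.GP.t_FD) g_ZL
  Pool.Agent.Y79.GP.t_ZP
theorem gFHD : S_FHD := Pool.Agent.Y319.GP.t_FHD Pool.Agent.Y321.GP.t_FD
theorem gFHC : S_FHC := Pool.Agent.Y319.GP.t_FHC Pool.Agent.Y321.GP.t_FD
theorem gHOL : S_HOL := Pool.Agent.Y185.GP.t_HOL gFHD gFHC
theorem gHOL2 : S_HOL2 := Pool.Agent.Y185.GP.t_HOL2 gFHD gFHC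
theorem gTEL : S_TEL := Pool.Agent.Y22.GP.t_TEL Pool.Agent.Y155.GP.t_D1
theorem gTEL2 : S_TEL2 := Pool.Agent.Y22.GP.t_TEL2 Pool.Agent.Y155.GP.t_D2
theorem gMEL : S_MEL := Pool.Agent.Y180.GP.t_MEL Pool.Agent.Y587.GP.t_V
theorem gVAR : S_VAR := Pool.Agent.Y125.GP.t_VAR Pool.Agent.Y379.GP.t_SP
  (Pool.Agent.Y125.GP.t_LSW Pool.Agent.Y379.GP.t_SP) Pool.Agent.Y379.GP.t_OFF
  (Pool.Agent.Y545.GP.t_CR Pool.Agent.Y587.GP.t_V)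
theorem gRPL : S_RPL := Pool.Agent.Y434.GP.t_RPL
  (Pool.Agent.Y891.GP.t_AFE Pool.Agent.Y587.GP.t_V Pool.Agent.Y587.GP.Chi.t_CHI) g_SM
theorem gBRW : S_BRW := t_BRW gTEL gTEL2 gHOL gHOL2 gMB gMEL
theorem gRRW : S_RRW := t_RRW gTEL2 gHOL gHOL2 gMB
theorem gMAIN : S_MAIN := t_MAIN gVAR gRPL gBRW gRRW Pool.Agent.Y961.GP.t_NS
  (Pool.Agent.Y232.GP.t_E1 g_SM) (Pool.Agent.Y86.GP.t_CT Pool.Agent.Y587.GP.t_V)

end Pool.Agent.H3.GP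

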