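import Pool.Graph.R_seed8.TH572.Saw4846
import Pool.Graph.R_seed8.TH547.FM.NS
import Pool.Graph.R_seed8.TH321.GF.AQ

set_option autoImplicit false

/-! Zeta by its partial sums, on the lines `Re s = x`, `1/2 ≤ x ≤ 2`. -/

namespace Pool.Agent.H3.GP

open Complex MeasureTheory Set Filter Topology
open Pool.Agent.TH158.FM (nsE nsE_norm)
open Pool.Agent.TH572.Saw

noncomputable section

/-- amplitude divided by the derivative of the phase -/
def gG (x b t u : ℝ) : ℝ := u ^ (-x) / (b * u - t)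

/-- the derivative of `gG` -/
def gG' (x b t u : ℝ) : ℝ :=
  ((-x) * u ^ (-x - 1 : ℝ) * (b * u - t) - u ^ (-x) * b) / (b * u - t) ^ 2

lemma g_f (x b t u : ℝ) (hu : 0 < u) :
    Complex.exp (((b * u : ℝ) : ℂ) * I) * (u : ℂ) ^ (-((x : ℂ) + (t : ℂ) * I) - 1) =
      ((u ^ (-x - 1) : ℝ) : ℂ) * nsE b t u := by
  have h0 : (u : ℂ) ≠ 0 := by exact_mod_cast hu.ne'
  have h1 : (u : ℂ) ^ (-((x : ℂ) + (t : ℂ) * I) - 1) =
      ((u ^ (-x - 1) : ℝ) : ℂ) * Complex.exp (((-(t * Real.log u) : ℝ) : ℂ) * I) := by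
    have h2 : -((x : ℂ) + (t : ℂ) * I) - 1 = ((-x - 1 : ℝ) : ℂ) + ((-t : ℝ) : ℂ) * I := by
      push_cast
      ring
    rw [h2, Complex.cpow_add _ _ h0, Complex.ofReal_cpow hu.le]
    congr 1
    rw [Complex.cpow_def_of_ne_zero h0, ← Complex.ofReal_log hu.le]
    congr 1
    push_cast
    ring
  rw [h1]
  unfold Pool.Agent.TH158.FM.nsE
  rw [mul_left_comm, ← Complex.exp_add]
  congr 2
  push_cast
  ring

lemma g_main (x t c b : ℝ) (hx : 0 < x) (hc : 0 < c) (hb : 0 < b) (h : t < b * c) :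
    ‖∫ u in Ioi c, Complex.exp (((b * u : ℝ) : ℂ) * I) * (u : ℂ) ^ (-((x : ℂ) + (t : ℂ) * I) - 1)‖ ≤
      2 / (c ^ x * (b * c - t)) := by
  have hpos : ∀ u, c ≤ u → 0 < b * u - t := by
    intro u hu
    have := mul_le_mul_of_nonneg_left hu hb.le
    linarith
  have hGd : ∀ u ∈ Ici c, HasDerivAt (gG x b t) (gG' x b t u) u := by
    intro u hu
    have hu' : 0 < u := lt_of_lt_of_le hc hu
    have h1 : HasDerivAt (fun u : ℝ => u ^ (-x)) ((-x) * u ^ (-x - 1 : ℝ)) u :=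
      Real.hasDerivAt_rpow_const (Or.inl hu'.ne')
    have h2 : HasDerivAt (fun u : ℝ => b * u - t) b u := by
      simpa using ((hasDerivAt_id u).const_mul b).sub_const t
    exact h1.div h2 (hpos u hu).ne'
  have hGn : ∀ u ∈ Ioi c, gG' x b t u ≤ 0 := by
    intro u hu
    have hu' : 0 < u := lt_trans hc hu
    have hp := hpos u (le_of_lt hu)
    unfold gG'
    apply div_nonpos_of_nonpos_of_nonneg _ (sq_nonneg _)
    have h1 : 0 ≤ u ^ (-x - 1 : ℝ) := Real.rpow_nonneg hu'.le _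
    have h2 : 0 ≤ u ^ (-x) := Real.rpow_nonneg hu'.le _
    have h3 := mul_nonneg (mul_nonneg hx.le h1) hp.le
    have h4 := mul_nonneg h2 hb.le
    nlinarith
  have hGl : Tendsto (gG x b t) atTop (𝓝 0) := by
    have h1 : Tendsto (fun u : ℝ => u ^ (-x)) atTop (𝓝 0) :=
      tendsto_rpow_neg_atTop hx
    have h2 : Tendsto (fun u : ℝ => (b * u - t)⁻¹) atTop (𝓝 0) := by
      apply tendsto_inv_atTop_zero.comp
      apply tendsto_atTop_add_const_right
      exact tendsto_id.const_mul_atTop hb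
    have h3 := h1.mul h2
    rw [mul_zero] at h3
    exact h3
  have hGi : IntegrableOn (gG' x b t) (Ioi c) :=
    integrableOn_Ioi_deriv_of_nonpos' hGd hGn hGl
  have hGI : ∫ u in Ioi c, gG' x b t u = 0 - gG x b t c :=
    integral_Ioi_of_hasDerivAt_of_nonpos' hGd hGn hGl
  have hG0 : 0 ≤ gG x b t c := div_nonneg (Real.rpow_nonneg hc.le _) (hpos c le_rfl).le
  -- the unit factor
  have hEd : ∀ u ∈ Ici c, HasDerivAt (nsE b t) (nsE b t u * (((b - t / u : ℝ) : ℂ) * I)) u := by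
    intro u hu
    have hu' : 0 < u := lt_of_lt_of_le hc hu
    have h1 : HasDerivAt (fun u : ℝ => b * u - t * Real.log u) (b - t / u) u := by
      have h2 := ((hasDerivAt_id u).const_mul b).sub ((Real.hasDerivAt_log hu'.ne').const_mul t)
      simp only [id, mul_one] at h2
      exact (show HasDerivAt (fun u : ℝ => b * u - t * Real.log u) (b - t * u⁻¹) u from h2).congr_deriv
        (by rw [div_eq_mul_inv])
    have h3 := (h1.ofReal_comp.mul_const I).cexp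
    exact h3
  have hEc : ContinuousOn (nsE b t) (Ici c) := fun u hu => (hEd u hu).continuousAt.continuousWithinAt
  have hEm : AEStronglyMeasurable (nsE b t) (volume.restrict (Ioi c)) :=
    (hEc.mono Ioi_subset_Ici_self).aestronglyMeasurable measurableSet_Ioi
  -- the antiderivative
  have hHd : ∀ u ∈ Ici c, HasDerivAt (fun u => (-I) * ((gG x b t u : ℂ) * nsE b t u))
      (((u ^ (-x - 1) : ℝ) : ℂ) * nsE b t u - I * ((gG' x b t u : ℂ) * nsE b t u)) u := by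
    intro u hu
    have hu' : 0 < u := lt_of_lt_of_le hc hu
    have h1 := ((hGd u hu).ofReal_comp.mul (hEd u hu)).const_mul (-I)
    refine h1.congr_deriv ?_
    have hp := hpos u hu
    have h2 : gG x b t u * (b - t / u) = u ^ (-x - 1) := by
      unfold gG
      have h3 : u ^ (-x - 1) = u ^ (-x) / u := by
        rw [← Real.rpow_sub_one hu'.ne']
      rw [h3]
      field_simp
    have h4 : ((gG x b t u : ℝ) : ℂ) * ((b - t / u : ℝ) : ℂ) = ((u ^ (-x - 1) : ℝ) : ℂ) := by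
      rw [← Complex.ofReal_mul, h2]
    rw [← h4]
    linear_combination (-(gG x b t u : ℂ) * nsE b t u * ((b - t / u : ℝ) : ℂ)) * Complex.I_mul_I
  have hHl : Tendsto (fun u => (-I) * ((gG x b t u : ℂ) * nsE b t u)) atTop (𝓝 0) := by
    rw [tendsto_zero_iff_norm_tendsto_zero]
    have h1 : (fun u => ‖(-I) * ((gG x b t u : ℂ) * nsE b t u)‖) = fun u => |gG x b t u| := by
      funext u
      rw [norm_mul, norm_mul, norm_neg, Complex.norm_I, nsE_norm, Complex.norm_real, one_mul, mul_one,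
        Real.norm_eq_abs]
    rw [h1]
    simpa using hGl.abs
  have hfi : IntegrableOn (fun u : ℝ => ((u ^ (-x - 1) : ℝ) : ℂ) * nsE b t u) (Ioi c) := by
    have h1 : IntegrableOn (fun u : ℝ => u ^ (-x - 1)) (Ioi c) :=
      integrableOn_Ioi_rpow_of_lt (by linarith) hc
    have h2 : IntegrableOn (fun u : ℝ => ((u ^ (-x - 1) : ℝ) : ℂ)) (Ioi c) := h1.ofReal
    exact h2.mul_bdd (c := 1) hEm (Eventually.of_forall fun u => (nsE_norm b t u).le)
  have hgi : IntegrableOn (fun u : ℝ => I * ((gG' x b t u : ℂ) * nsE b t u)) (Ioi c) := by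
    have h2 : IntegrableOn (fun u : ℝ => ((gG' x b t u : ℝ) : ℂ)) (Ioi c) := hGi.ofReal
    exact (h2.mul_bdd (c := 1) hEm (Eventually.of_forall fun u => (nsE_norm b t u).le)).const_mul I
  have hH := integral_Ioi_of_hasDerivAt_of_tendsto' hHd (hfi.sub hgi) hHl
  rw [integral_sub hfi hgi] at hH
  have hf : ∫ u in Ioi c, Complex.exp (((b * u : ℝ) : ℂ) * I) * (u : ℂ) ^ (-((x : ℂ) + (t : ℂ) * I) - 1) =
      ∫ u in Ioi c, ((u ^ (-x - 1) : ℝ) : ℂ) * nsE b t u :=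
    setIntegral_congr_fun measurableSet_Ioi fun u hu => g_f x b t u (lt_trans hc hu)
  rw [hf]
  have h5 : ∫ u in Ioi c, ((u ^ (-x - 1) : ℝ) : ℂ) * nsE b t u =
      I * ((gG x b t c : ℂ) * nsE b t c) + ∫ u in Ioi c, I * ((gG' x b t u : ℂ) * nsE b t u) := by
    linear_combination hH
  rw [h5]
  have h6 : ‖I * ((gG x b t c : ℂ) * nsE b t c)‖ = gG x b t c := by
    rw [norm_mul, norm_mul, Complex.norm_I, nsE_norm, Complex.norm_real, one_mul, mul_one,
      Real.norm_eq_abs, abs_of_nonneg hG0]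
  have h7 : ‖∫ u in Ioi c, I * ((gG' x b t u : ℂ) * nsE b t u)‖ ≤ gG x b t c := by
    calc ‖∫ u in Ioi c, I * ((gG' x b t u : ℂ) * nsE b t u)‖
        ≤ ∫ u in Ioi c, ‖I * ((gG' x b t u : ℂ) * nsE b t u)‖ := norm_integral_le_integral_norm _
      _ = ∫ u in Ioi c, -gG' x b t u := by
          apply setIntegral_congr_fun measurableSet_Ioi
          intro u hu
          simp only
          rw [norm_mul, norm_mul, Complex.norm_I, nsE_norm, Complex.norm_real, one_mul, mul_one,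
            Real.norm_eq_abs, abs_of_nonpos (hGn u hu)]
      _ = gG x b t c := by rw [integral_neg, hGI]; ring
  have h8 : gG x b t c = 1 / (c ^ x * (b * c - t)) := by
    unfold gG
    rw [Real.rpow_neg hc.le, inv_eq_one_div, div_div]
  calc _ ≤ ‖I * ((gG x b t c : ℂ) * nsE b t c)‖ + ‖∫ u in Ioi c, I * ((gG' x b t u : ℂ) * nsE b t u)‖ :=
        norm_add_le _ _
    _ ≤ gG x b t c + gG x b t c := by rw [h6]; gcongr
    _ = 2 / (c ^ x * (b * c - t)) := by rw [h8]; ring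

/-- the same with the opposite frequency -/
lemma g_neg (x t c b : ℝ) (hx : 0 < x) (hc : 0 < c) (hb : 0 < b) (h : -t < b * c) :
    ‖∫ u in Ioi c, Complex.exp (((-(b * u) : ℝ) : ℂ) * I) * (u : ℂ) ^ (-((x : ℂ) + (t : ℂ) * I) - 1)‖ ≤
      2 / (c ^ x * (b * c + t)) := by
  have h1 := g_main x (-t) c b hx hc hb h
  rw [sub_neg_eq_add] at h1
  refine le_trans (le_of_eq ?_) h1
  rw [← Complex.norm_conj, ← integral_conj]
  congr 1
  refine setIntegral_congr_fun measurableSet_Ioi fun u hu => ?_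
  have hu0 : 0 < u := lt_trans hc hu
  simp only [map_mul]
  congr 1
  · rw [← Complex.exp_conj]
    congr 1
    simp
  · have harg : (u : ℂ).arg ≠ Real.pi := by
      rw [Complex.arg_ofReal_of_nonneg hu0.le]
      exact Real.pi_pos.ne
    have e2 : (-((x : ℂ) + ((-t : ℝ) : ℂ) * I) - 1) = (starRingEnd ℂ) (-((x : ℂ) + (t : ℂ) * I) - 1) := by
      simp
    rw [e2, Complex.cpow_conj _ _ harg, Complex.conj_ofReal]

lemma s_term (x u : ℝ) (hx1 : 1 / 2 ≤ x) (hx2 : x ≤ 2) (c : ℝ) (m : ℕ) (hc : 1 ≤ c) (hm : 1 ≤ m)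
    (hu0 : 0 < u) (huX : u ≤ c) :
    ‖((x : ℂ) + (u : ℂ) * I) * Sn m c ((x : ℂ) + (u : ℂ) * I)‖ ≤ (1 / (2 * c ^ x)) * (1 / (m : ℝ) ^ 2) := by
  have hc0 : 0 < c := by linarith
  have hx0 : 0 < x := by linarith
  have hm0 : (0 : ℝ) < m := by exact_mod_cast hm
  have hm1 : (1 : ℝ) ≤ m := by exact_mod_cast hm
  have hcx : 0 < c ^ x := by positivity
  have hpi : 3 < Real.pi := Real.pi_gt_three
  set s : ℂ := (x : ℂ) + (u : ℂ) * I with hs
  have hre : s.re = x := by simp [hs]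
  have hw : (-s - 1).re < -1 := by
    simp only [sub_re, neg_re, one_re, hre]
    linarith
  set b : ℝ := 2 * Real.pi * m with hb
  have hb0 : 0 < b := by positivity
  have hlow : 5 * (m * c : ℝ) ≤ b * c - u := by
    have h1 : 6 * (m * c : ℝ) ≤ b * c := by
      rw [hb]
      have h2 : 0 < (m * c : ℝ) := by positivity
      nlinarith
    have : c ≤ m * c := by nlinarith
    linarith
  have hlow2 : 5 * (m * c : ℝ) ≤ b * c + u := by linarith
  have hmc : 0 < (m * c : ℝ) := by positivity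
  have k1 : ‖∫ y in Ioi c, Complex.exp (((b * y : ℝ) : ℂ) * I) * (y : ℂ) ^ (-s - 1)‖ ≤
      2 / (c ^ x * (5 * (m * c))) := by
    refine (g_main x u c b hx0 hc0 hb0 (by linarith)).trans ?_
    gcongr
  have k2 : ‖∫ y in Ioi c, Complex.exp (((-(b * y) : ℝ) : ℂ) * I) * (y : ℂ) ^ (-s - 1)‖ ≤
      2 / (c ^ x * (5 * (m * c))) := by
    refine (g_neg x u c b hx0 hc0 hb0 (by linarith [mul_pos hb0 hc0])).trans ?_
    gcongr
  have i1 : IntegrableOn (fun y : ℝ => Complex.exp (((b * y : ℝ) : ℂ) * I) * (y : ℂ) ^ (-s - 1)) (Ioi c) := by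
    have := e_int (m : ℝ) hc0 hw
    exact this
  have i2 : IntegrableOn (fun y : ℝ => Complex.exp (((-(b * y) : ℝ) : ℂ) * I) * (y : ℂ) ^ (-s - 1)) (Ioi c) := by
    have := e_int (-(m : ℝ)) hc0 hw
    refine this.congr (Eventually.of_forall fun y => ?_)
    simp only
    congr 3
    rw [hb]; push_cast; ring
  have e1 : Sn m c s = (2 * Real.pi * I * m)⁻¹ *
      ((∫ y in Ioi c, Complex.exp (((b * y : ℝ) : ℂ) * I) * (y : ℂ) ^ (-s - 1)) -
        ∫ y in Ioi c, Complex.exp (((-(b * y) : ℝ) : ℂ) * I) * (y : ℂ) ^ (-s - 1)) := by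
    rw [← integral_sub i1 i2, ← integral_const_mul]
    unfold Sn
    refine setIntegral_congr_fun measurableSet_Ioi fun y hy => ?_
    rw [← sub_mul, ← mul_assoc]
    congr 1
    push_cast
    rw [Complex.sin]
    have hpc : (Real.pi : ℂ) ≠ 0 := by exact_mod_cast Real.pi_pos.ne'
    have hmc' : (m : ℂ) ≠ 0 := by exact_mod_cast hm0.ne'
    have hI := Complex.I_ne_zero
    have e3 : (-(2 * Real.pi * m * y) * I : ℂ) = -((2 * Real.pi * m * y) * I) := by ring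
    rw [hb]
    push_cast
    rw [e3]
    field_simp
    ring_nf
    rw [Complex.I_sq]
    ring
  have hsn : ‖s‖ ≤ 3 * c := by
    rw [hs]
    refine (norm_add_le _ _).trans ?_
    rw [norm_mul, Complex.norm_I, mul_one, Complex.norm_real, Complex.norm_real, Real.norm_eq_abs,
      Real.norm_eq_abs, abs_of_pos hu0, abs_of_pos hx0]
    linarith
  have hd : ‖(2 * Real.pi * I * m : ℂ)‖ = 2 * Real.pi * m := by
    rw [norm_mul, norm_mul, norm_mul, Complex.norm_I, Complex.norm_real, Complex.norm_natCast,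
      Real.norm_eq_abs, abs_of_pos Real.pi_pos]
    simp
  rw [norm_mul, e1, norm_mul, norm_inv, hd]
  have k3 := (norm_sub_le (∫ y in Ioi c, Complex.exp (((b * y : ℝ) : ℂ) * I) * (y : ℂ) ^ (-s - 1))
    (∫ y in Ioi c, Complex.exp (((-(b * y) : ℝ) : ℂ) * I) * (y : ℂ) ^ (-s - 1))).trans (add_le_add k1 k2)
  calc ‖s‖ * ((2 * Real.pi * m)⁻¹ * _) ≤ (3 * c) * ((2 * 3 * (m : ℝ))⁻¹ *
        (2 / (c ^ x * (5 * (m * c))) + 2 / (c ^ x * (5 * (m * c))))) := by
        gcongr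
    _ = (2 / 5) * (1 / c ^ x * (1 / (m : ℝ) ^ 2)) := by field_simp; ring
    _ ≤ (1 / 2) * (1 / c ^ x * (1 / (m : ℝ) ^ 2)) := by
        have : 0 ≤ 1 / c ^ x * (1 / (m : ℝ) ^ 2) := by positivity
        linarith
    _ = (1 / (2 * c ^ x)) * (1 / (m : ℝ) ^ 2) := by field_simp

/-- zeta by its partial sum -/
lemma pw (x u : ℝ) (hx1 : 1 / 2 ≤ x) (hx2 : x ≤ 2) (X : ℕ) (hX : 1 ≤ X) (hu0 : 0 < u) (huX : u ≤ X) :
    ‖riemannZeta ((x : ℂ) + (u : ℂ) * I) - ∑ n ∈ Finset.Icc 1 X, (n : ℂ) ^ (-((x : ℂ) + (u : ℂ) * I))‖ ≤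
      Real.sqrt X / u + 2 := by
  have hX0 : (0 : ℝ) < X := by exact_mod_cast hX
  have hXr : (1 : ℝ) ≤ X := by exact_mod_cast hX
  have hXpos : 0 < X := hX
  set s : ℂ := (x : ℂ) + (u : ℂ) * I with hs
  have hre : s.re = x := by simp [hs]
  have him : s.im = u := by simp [hs]
  have hs0 : 0 < s.re := by rw [hre]; linarith
  have hs1 : s ≠ 1 := by
    intro h
    rw [h] at him
    simp at him
    linarith
  have hw : (-s - 1).re < -1 := by
    simp only [sub_re, neg_re, one_re, hre]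
    linarith
  have hem := em hs0 hs1 hX0
  rw [Nat.floor_natCast, Int.fract_natCast, Complex.ofReal_natCast] at hem
  have hlim : Tendsto (fun M : ℕ => ∑ m ∈ Finset.Icc 1 M, s * Sn m (X : ℝ) s) atTop
      (𝓝 (-(s * ∫ u in Ioi (X : ℝ), ((Int.fract u - 1 / 2 : ℝ) : ℂ) * (u : ℂ) ^ (-s - 1)))) := by
    have h1 := ((tail_tendsto hX0 hw).sub_const
      (∫ u in Ioi (X : ℝ), ((Int.fract u - 1 / 2 : ℝ) : ℂ) * (u : ℂ) ^ (-s - 1))).const_mul s
    rw [zero_sub, mul_neg] at h1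
    refine h1.congr fun M => ?_
    rw [← Finset.mul_sum, sum_Sn M hX0 hs0]
  have hX1x : (1:ℝ) ≤ (X:ℝ) ^ x := Real.one_le_rpow hXr (by linarith)
  have hb : ‖-(s * ∫ u in Ioi (X : ℝ), ((Int.fract u - 1 / 2 : ℝ) : ℂ) * (u : ℂ) ^ (-s - 1))‖ ≤ 1 := by
    refine le_of_tendsto hlim.norm (Eventually.of_forall fun M => ?_)
    refine (norm_sum_le _ _).trans ?_
    calc ∑ m ∈ Finset.Icc 1 M, ‖s * Sn m (X : ℝ) s‖
        ≤ ∑ m ∈ Finset.Icc 1 M, (1 / (2 * (X:ℝ) ^ x)) * (1 / (m : ℝ) ^ 2) :=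
          Finset.sum_le_sum fun m hm => s_term x u hx1 hx2 X m hXr (Finset.mem_Icc.1 hm).1 hu0 huX
      _ = (1 / (2 * (X:ℝ) ^ x)) * ∑ m ∈ Finset.Icc 1 M, 1 / (m : ℝ) ^ 2 := by rw [Finset.mul_sum]
      _ ≤ (1 / (2 * (X:ℝ) ^ x)) * 2 := by
          have := Pool.Agent.TH321.GF.AQ_sq' M
          gcongr
      _ ≤ (1 / (2 * 1)) * 2 := by gcongr
      _ = 1 := by norm_num
  rw [hem] at hb
  have n1 : ‖(X : ℂ) ^ (-s)‖ ≤ 1 := by
    rw [Complex.norm_natCast_cpow_of_pos hXpos, Complex.neg_re, hre, Real.rpow_neg hX0.le]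
    exact inv_le_one_of_one_le₀ hX1x
  have n2 : ‖(X : ℂ) ^ (1 - s)‖ ≤ Real.sqrt X := by
    rw [Complex.norm_natCast_cpow_of_pos hXpos, Complex.sub_re, hre, Real.sqrt_eq_rpow]
    refine Real.rpow_le_rpow_of_exponent_le hXr ?_
    simp only [one_re]
    linarith
  have hs1n : u ≤ ‖1 - s‖ := by
    have h1 := Complex.abs_im_le_norm (1 - s)
    have h2 : (1 - s).im = -u := by rw [Complex.sub_im, him]; simp
    rwa [h2, abs_neg, abs_of_nonneg hu0.le] at h1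
  have b2 : ‖(X : ℂ) ^ (1 - s) / (1 - s)‖ ≤ Real.sqrt X / u := by
    rw [norm_div]
    gcongr
  have b3 : ‖((0 - 1 / 2 : ℝ) : ℂ) * (X : ℂ) ^ (-s)‖ ≤ 1 := by
    rw [norm_mul, Complex.norm_real]
    have : ‖(0 - 1 / 2 : ℝ)‖ ≤ 1 := by norm_num
    calc ‖(0 - 1 / 2 : ℝ)‖ * ‖(X : ℂ) ^ (-s)‖ ≤ 1 * 1 := by gcongr
      _ = 1 := by norm_num
  have e0 : riemannZeta s - ∑ n ∈ Finset.Icc 1 X, (n : ℂ) ^ (-s) =
      (riemannZeta s - ∑ n ∈ Finset.Icc 1 X, (n : ℂ) ^ (-s) +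
      (X : ℂ) ^ (1 - s) / (1 - s) - ((0 - 1 / 2 : ℝ) : ℂ) * (X : ℂ) ^ (-s)) -
      (X : ℂ) ^ (1 - s) / (1 - s) + ((0 - 1 / 2 : ℝ) : ℂ) * (X : ℂ) ^ (-s) := by
    ring
  rw [e0]
  have t1 := norm_sub_le (riemannZeta s - ∑ n ∈ Finset.Icc 1 X, (n : ℂ) ^ (-s) +
      (X : ℂ) ^ (1 - s) / (1 - s) - ((0 - 1 / 2 : ℝ) : ℂ) * (X : ℂ) ^ (-s))
      ((X : ℂ) ^ (1 - s) / (1 - s))
  refine (norm_add_le _ _).trans ?_
  linarith

end

end Pool.Agent.H3.GP
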