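import Pool.Agent.H3.GP.Ap
import Pool.Agent.H3.SQ.SM
import Pool.Graph.R_seed8.Y969.GP.Def
import Pool.Graph.R_seed8.TH928.GS.MV

set_option autoImplicit false

/-! The mean squares of zeta needed for project GP. -/

namespace Pool.Agent.H3.GP

open Complex MeasureTheory Set Filter Topology

noncomputable section

theorem g_SM : Pool.Agent.Y969.GP.S_SM := by
  obtain ⟨C, T₀, hC, hT₀, h⟩ := Pool.Agent.H3.SQ.t_SM (Pool.Agent.TH740.GF.t_VQ Pool.Agent.TH928.GS.t_MV)
  have hl2 : 0 < Real.log 2 := Real.log_pos (by norm_num)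
  have hff : ∀ u : ℝ, Pool.Agent.Y969.GP.ff u = ‖Pool.Agent.TH612.GS.z u‖ ^ 2 := fun u => rfl
  have hlT₀ : 0 < Real.log T₀ := Real.log_pos (by linarith)
  have hT₀0 : 0 < T₀ := by linarith
  refine ⟨C + C * T₀ * Real.log T₀ / Real.log 2, by positivity, fun T hT => ?_⟩
  simp only [hff]
  have hT0 : 0 < T := by linarith
  have hl : Real.log 2 ≤ Real.log T := Real.log_le_log (by norm_num) hT
  have hlT : 0 < Real.log T := by linarith
  rcases le_or_gt T₀ T with h1 | h1
  · refine (h T h1).trans ?_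
    have : 0 ≤ C * T₀ * Real.log T₀ / Real.log 2 := by positivity
    have h3 : 0 ≤ T * Real.log T := by positivity
    nlinarith
  · have hc : Continuous fun u : ℝ => ‖Pool.Agent.TH612.GS.z u‖ ^ 2 := Pool.Agent.TH612.GS.z_cont.norm.pow 2
    calc ∫ u in (0:ℝ)..(2 * T), ‖Pool.Agent.TH612.GS.z u‖ ^ 2
        ≤ ∫ u in (0:ℝ)..(2 * T₀), ‖Pool.Agent.TH612.GS.z u‖ ^ 2 := by
          refine intervalIntegral.integral_mono_interval le_rfl (by linarith) (by linarith) ?_
            (hc.intervalIntegrable _ _)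
          exact Eventually.of_forall fun u => by positivity
      _ ≤ C * T₀ * Real.log T₀ := h T₀ le_rfl
      _ = C * T₀ * Real.log T₀ / Real.log 2 * (1 * Real.log 2) := by field_simp
      _ ≤ C * T₀ * Real.log T₀ / Real.log 2 * (T * Real.log T) := by
          have : (1:ℝ) ≤ T := by linarith
          gcongr
      _ ≤ _ := by
          have h3 : 0 ≤ C * (T * Real.log T) := by positivity
          nlinarith

lemma line_cont (x : ℝ) (T : ℝ) : ContinuousOn (fun v : ℝ => riemannZeta (x + I * v)) (Icc 1 T) := by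
  intro v hv
  refine ContinuousAt.continuousWithinAt ?_
  have h1 : (x + I * v : ℂ) ≠ 1 := by
    intro h
    have := congrArg Complex.im h
    simp at this
    linarith [hv.1]
  exact ContinuousAt.comp (f := fun v : ℝ => (x + I * v : ℂ)) (differentiableAt_riemannZeta h1).continuousAt
    (by fun_prop)

lemma zl_big (C : ℝ) (hC : 0 < C) (hMV : ∀ (T : ℝ) (X : ℕ) (a : ℕ → ℂ), 1 ≤ T → (X : ℝ) ≤ T ^ 2 →
    ∫ u in (0:ℝ)..(2 * T), ‖∑ n ∈ Finset.Icc 1 X, a n * (n : ℂ) ^ (-(I * u))‖ ^ 2 ≤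
    C * ∑ n ∈ Finset.Icc 1 X, (T + n) * ‖a n‖ ^ 2) (x T : ℝ) (hx1 : 1 / 2 ≤ x) (hx2 : x ≤ 2) (hT : 2 ≤ T) :
    ∫ v in (1 : ℝ)..T, ‖riemannZeta (x + I * v)‖ ^ 2 ≤ (6 * C + 24) * T * (2 + Real.log T) := by
  have hT0 : 0 < T := by linarith
  obtain ⟨X, hX⟩ : ∃ X : ℕ, X = ⌈T⌉₊ := ⟨_, rfl⟩
  have hX1 : T ≤ X := by rw [hX]; exact Nat.le_ceil _
  have hX2 : (X : ℝ) ≤ T + 1 := by
    have := Nat.ceil_lt_add_one (a := T) (by linarith)
    rw [hX]; linarith
  have hXr : (1:ℝ) ≤ X := by linarith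
  have hXn : 1 ≤ X := by exact_mod_cast hXr
  have hXT : (X : ℝ) ≤ T ^ 2 := by nlinarith
  have hlT : 0 ≤ Real.log T := Real.log_nonneg (by linarith)
  set a : ℕ → ℂ := fun n => (n : ℂ) ^ (-(x : ℂ)) with ha
  have hP : ∀ v : ℝ, ∑ n ∈ Finset.Icc 1 X, (n : ℂ) ^ (-((x : ℂ) + (v : ℂ) * I)) =
      ∑ n ∈ Finset.Icc 1 X, a n * (n : ℂ) ^ (-(I * v)) := by
    intro v
    refine Finset.sum_congr rfl fun n hn => ?_
    have hn0 : (n : ℂ) ≠ 0 := by
      have := (Finset.mem_Icc.1 hn).1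
      exact_mod_cast (by omega : n ≠ 0)
    rw [ha]
    simp only
    rw [← Complex.cpow_add _ _ hn0]
    congr 1; ring
  set P : ℝ → ℂ := fun v => ∑ n ∈ Finset.Icc 1 X, a n * (n : ℂ) ^ (-(I * v)) with hPd
  have hPc : Continuous P := by
    rw [hPd]
    refine continuous_finsetSum _ fun n hn => ?_
    have hn0 : (n : ℂ) ≠ 0 := by
      have := (Finset.mem_Icc.1 hn).1
      exact_mod_cast (by omega : n ≠ 0)
    exact continuous_const.mul (Continuous.const_cpow (by fun_prop) (Or.inl hn0))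
  have hPc2 : Continuous fun v => ‖P v‖ ^ 2 := hPc.norm.pow 2
  have h1 := hMV T X a (by linarith) hXT
  have h2 : ∑ n ∈ Finset.Icc 1 X, (T + n) * ‖a n‖ ^ 2 ≤ 3 * T * (2 + Real.log T) := by
    have g1 : ∀ n ∈ Finset.Icc 1 X, (T + n) * ‖a n‖ ^ 2 ≤ T * (n : ℝ)⁻¹ + 1 := by
      intro n hn
      have hn1 : 1 ≤ n := (Finset.mem_Icc.1 hn).1
      have hn0' : (0 : ℝ) < n := by exact_mod_cast hn1
      have hn1' : (1 : ℝ) ≤ n := by exact_mod_cast hn1
      have e : ‖a n‖ ^ 2 ≤ (n : ℝ)⁻¹ := by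
        rw [ha]
        simp only
        rw [Complex.norm_natCast_cpow_of_pos hn1, ← Real.rpow_natCast, ← Real.rpow_mul hn0'.le,
          ← Real.rpow_neg_one]
        refine Real.rpow_le_rpow_of_exponent_le hn1' ?_
        simp only [neg_re, ofReal_re]
        push_cast
        linarith
      calc (T + n) * ‖a n‖ ^ 2 ≤ (T + n) * (n : ℝ)⁻¹ := by gcongr
        _ = T * (n : ℝ)⁻¹ + 1 := by field_simp
    refine (Finset.sum_le_sum g1).trans ?_
    rw [Finset.sum_add_distrib, ← Finset.mul_sum]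
    have g4 : ∑ n ∈ Finset.Icc 1 X, ((n : ℝ))⁻¹ ≤ 1 + Real.log X := by
      have := harmonic_le_one_add_log X
      rw [harmonic_eq_sum_Icc] at this
      push_cast at this
      exact this
    have g5 : Real.log X ≤ 1 + Real.log T := by
      have : Real.log X ≤ Real.log (2 * T) := Real.log_le_log (by linarith) (by linarith)
      rw [Real.log_mul (by norm_num) hT0.ne'] at this
      have h2 : Real.log 2 ≤ 1 := by
        have := Real.log_two_lt_d9
        linarith
      linarith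
    have g6 : T * ∑ n ∈ Finset.Icc 1 X, ((n : ℝ))⁻¹ ≤ T * (2 + Real.log T) :=
      mul_le_mul_of_nonneg_left (by linarith) hT0.le
    have g7 : ∑ _n ∈ Finset.Icc 1 X, (1:ℝ) = X := by simp
    rw [g7]
    nlinarith [mul_nonneg hT0.le hlT]
  have hbd : ∀ v ∈ Icc (1:ℝ) T, ‖riemannZeta (x + I * v)‖ ^ 2 ≤ 2 * ‖P v‖ ^ 2 + (4 * X * v ^ (-2 : ℤ) + 16) := by
    intro v hv
    have hv0 : 0 < v := by linarith [hv.1]
    have hb := pw x v hx1 hx2 X hXn hv0 (hv.2.trans hX1)
    rw [hP v] at hb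
    have e1 : (x + I * v : ℂ) = (x : ℂ) + (v : ℂ) * I := by ring
    rw [e1]
    set w := riemannZeta ((x : ℂ) + (v : ℂ) * I) with hw
    have t1 : ‖w‖ ≤ ‖P v‖ + ‖w - P v‖ := by
      have := norm_add_le (P v) (w - P v)
      rwa [add_sub_cancel] at this
    have t2 : ‖w‖ ^ 2 ≤ 2 * ‖P v‖ ^ 2 + 2 * ‖w - P v‖ ^ 2 := by
      have h0 := norm_nonneg w
      nlinarith [sq_nonneg (‖P v‖ - ‖w - P v‖), pow_le_pow_left₀ h0 t1 2]
    have hq2 : Real.sqrt X ^ 2 = X := Real.sq_sqrt (by linarith)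
    have t3 : ‖w - P v‖ ^ 2 ≤ 2 * (Real.sqrt X / v) ^ 2 + 2 * 2 ^ 2 := by
      have h0 := norm_nonneg (w - P v)
      nlinarith [sq_nonneg (Real.sqrt X / v - 2), pow_le_pow_left₀ h0 hb 2]
    have t4 : (Real.sqrt X / v) ^ 2 = X * v ^ (-2 : ℤ) := by
      rw [div_pow, hq2, zpow_neg]
      norm_cast
    rw [t4] at t3
    linarith
  have hinv : IntervalIntegrable (fun u : ℝ => u ^ (-2 : ℤ)) volume 1 T := by
    refine ContinuousOn.intervalIntegrable ?_
    intro u hu
    rw [uIcc_of_le (by linarith)] at hu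
    refine ContinuousAt.continuousWithinAt ?_
    refine ContinuousAt.zpow₀ (by fun_prop) _ (Or.inl ?_)
    linarith [hu.1]
  have hintv : ∫ u in (1:ℝ)..T, u ^ (-2 : ℤ) ≤ 1 := by
    rw [integral_zpow]
    · norm_num
      have : 0 < T⁻¹ := by positivity
      linarith
    · right
      refine ⟨by norm_num, ?_⟩
      rw [uIcc_of_le (by linarith)]
      rintro ⟨h1, -⟩
      linarith
  have hzi : IntervalIntegrable (fun v : ℝ => ‖riemannZeta (x + I * v)‖ ^ 2) volume 1 T := by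
    refine ContinuousOn.intervalIntegrable ?_
    rw [uIcc_of_le (by linarith)]
    exact (line_cont x T).norm.pow 2
  calc ∫ v in (1 : ℝ)..T, ‖riemannZeta (x + I * v)‖ ^ 2
      ≤ ∫ v in (1 : ℝ)..T, (2 * ‖P v‖ ^ 2 + (4 * X * v ^ (-2 : ℤ) + 16)) := by
        refine intervalIntegral.integral_mono_on (by linarith) hzi ?_ hbd
        exact ((hPc2.const_mul _).intervalIntegrable _ _).add
            ((hinv.const_mul _).add intervalIntegrable_const)
    _ = 2 * (∫ v in (1 : ℝ)..T, ‖P v‖ ^ 2) +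
        (4 * X * (∫ u in (1:ℝ)..T, u ^ (-2 : ℤ)) + 16 * (T - 1)) := by
        rw [intervalIntegral.integral_add ((hPc2.const_mul _).intervalIntegrable _ _)
          ((hinv.const_mul _).add intervalIntegrable_const),
          intervalIntegral.integral_add (hinv.const_mul _) intervalIntegrable_const,
          intervalIntegral.integral_const_mul, intervalIntegral.integral_const_mul,
          intervalIntegral.integral_const]
        simp only [smul_eq_mul]
        ring
    _ ≤ 2 * (C * (3 * T * (2 + Real.log T))) + (4 * (T + 1) * 1 + 16 * (T - 1)) := by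
        have q1 : ∫ v in (1 : ℝ)..T, ‖P v‖ ^ 2 ≤ C * (3 * T * (2 + Real.log T)) := by
          calc ∫ v in (1 : ℝ)..T, ‖P v‖ ^ 2 ≤ ∫ v in (0 : ℝ)..(2 * T), ‖P v‖ ^ 2 := by
                refine intervalIntegral.integral_mono_interval (by norm_num) (by linarith) (by linarith) ?_
                  (hPc2.intervalIntegrable _ _)
                exact Eventually.of_forall fun u => by positivity
            _ ≤ C * ∑ n ∈ Finset.Icc 1 X, (T + n) * ‖a n‖ ^ 2 := h1
            _ ≤ _ := by gcongr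
        have hn : 0 ≤ ∫ u in (1:ℝ)..T, u ^ (-2 : ℤ) :=
          intervalIntegral.integral_nonneg (by linarith) fun u hu => by
            have : 0 < u := by linarith [hu.1]
            positivity
        gcongr
    _ ≤ _ := by
        have := mul_nonneg hT0.le hlT
        nlinarith

theorem g_ZL : Pool.Agent.Y969.GP.S_ZL := by
  obtain ⟨C, hC, hMV⟩ := Pool.Agent.TH928.GS.t_MV
  intro κ hκ
  set D : ℝ := 2 + 1 / κ with hD
  have hD0 : 0 < D := by positivity
  refine ⟨(6 * C + 24) * 4 * D * 2 ^ κ, by positivity, fun x T hx1 hx2 hT => ?_⟩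
  have hlog : ∀ R : ℝ, 1 ≤ R → 2 + Real.log R ≤ D * R ^ κ := by
    intro R hR
    have h1 := Real.log_le_rpow_div (by linarith : 0 ≤ R) hκ
    have h2 : 1 ≤ R ^ κ := Real.one_le_rpow hR hκ.le
    rw [hD, add_mul, div_mul_eq_mul_div, one_mul]
    linarith
  have hbig : ∀ R : ℝ, 2 ≤ R → ∫ v in (1 : ℝ)..R, ‖riemannZeta (x + I * v)‖ ^ 2 ≤
      (6 * C + 24) * D * R ^ (1 + κ) := by
    intro R hR
    refine (zl_big C hC hMV x R hx1 hx2 hR).trans ?_
    have h1 := hlog R (by linarith)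
    have h2 : R ^ (1 + κ) = R * R ^ κ := by
      rw [Real.rpow_add (by linarith), Real.rpow_one]
    rw [h2]
    have h3 : 0 ≤ (6 * C + 24) * R := by positivity
    calc (6 * C + 24) * R * (2 + Real.log R) ≤ (6 * C + 24) * R * (D * R ^ κ) := by gcongr
      _ = _ := by ring
  have hTp : 0 < T := by linarith
  have h2κ : (1:ℝ) ≤ 2 ^ κ := Real.one_le_rpow (by norm_num) hκ.le
  rcases le_or_gt 2 T with h2 | h2
  · refine (hbig T h2).trans ?_
    have h3 : 0 ≤ (6 * C + 24) * D * T ^ (1 + κ) := by positivity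
    calc (6 * C + 24) * D * T ^ (1 + κ) ≤ (6 * C + 24) * D * T ^ (1 + κ) * (4 * 2 ^ κ) := by
          nlinarith
      _ = _ := by ring
  · have h3 : 1 ≤ T ^ (1 + κ) := Real.one_le_rpow hT (by linarith)
    have hi : IntervalIntegrable (fun v : ℝ => ‖riemannZeta (x + I * v)‖ ^ 2) volume 1 2 := by
      refine ContinuousOn.intervalIntegrable ?_
      rw [uIcc_of_le (by norm_num)]
      exact (line_cont x 2).norm.pow 2
    calc ∫ v in (1 : ℝ)..T, ‖riemannZeta (x + I * v)‖ ^ 2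
        ≤ ∫ v in (1 : ℝ)..2, ‖riemannZeta (x + I * v)‖ ^ 2 := by
          refine intervalIntegral.integral_mono_interval le_rfl hT h2.le ?_ hi
          exact Eventually.of_forall fun u => by positivity
      _ ≤ (6 * C + 24) * D * 2 ^ (1 + κ) := hbig 2 le_rfl
      _ = (6 * C + 24) * 2 * D * 2 ^ κ := by
          rw [Real.rpow_add (by norm_num), Real.rpow_one]; ring
      _ ≤ (6 * C + 24) * 4 * D * 2 ^ κ * 1 := by
          have : 0 ≤ (6 * C + 24) * D * 2 ^ κ := by positivity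
          nlinarith
      _ ≤ _ := by gcongr

end

end Pool.Agent.H3.GP
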